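import Pool.Agent.Work.MP_ed045b_an.Full

set_option autoImplicit false

open MeasureTheory Filter Topology in
/-- For every complex `α` with `0 < |α| < 1` and every integer `L ≥ 6`, for almost every `u`:
the Julia set of the random iterates has zero area, almost every orbit converges to `0`, `1` or
`∞`, and if the mean of `log|1 + α cos 2πt|` is nonnegative, almost every orbit converges to `∞`. -/
theorem Pool.Agent.Results.MP_ed045b_an.LAtLeastSix.result :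
    ∀ α : ℂ, 0 < ‖α‖ → ‖α‖ < 1 → ∀ L : ℕ, 6 ≤ L →
    ∀ᵐ u : ℝ ∂(volume : Measure ℝ),
      ∀ f : ℕ → ℂ → ℂ,
        (∀ n : ℕ, ∀ w : ℂ, f n w = (List.range n).foldl
            (fun x j => x + α * ((Real.cos (2 * Real.pi * (L : ℝ) ^ j * u) : ℝ) : ℂ) * x * (1 - x)) w) →
      (∀ d : ℂ → ℂ → ℝ,
        (∀ a b : ℂ, d a b = 2 * ‖a - b‖ / (Real.sqrt (1 + ‖a‖ ^ 2) * Real.sqrt (1 + ‖b‖ ^ 2))) →
        volume {z : ℂ | ¬ ∃ U : Set ℂ, IsOpen U ∧ z ∈ U ∧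
          ∀ φ : ℕ → ℕ, StrictMono φ → ∃ ψ : ℕ → ℕ, StrictMono ψ ∧
            ∀ K : Set ℂ, K ⊆ U → IsCompact K → ∀ ε : ℝ, 0 < ε →
              ∃ N : ℕ, ∀ m ≥ N, ∀ n ≥ N, ∀ w ∈ K,
                d (f (φ (ψ m)) w) (f (φ (ψ n)) w) < ε} = 0) ∧
      (∀ᵐ z : ℂ ∂(volume : Measure ℂ),
        Tendsto (fun n => ‖f n z‖) atTop atTop ∨ Tendsto (fun n => f n z) atTop (𝓝 0) ∨
          Tendsto (fun n => f n z) atTop (𝓝 1)) ∧
      (0 ≤ ∫ t in (0 : ℝ)..1, Real.log ‖1 + α * ((Real.cos (2 * Real.pi * t) : ℝ) : ℂ)‖ →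
        ∀ᵐ z : ℂ ∂(volume : Measure ℂ), Tendsto (fun n => ‖f n z‖) atTop atTop) :=
  fun α hα0 hα1 L hL => Kan.full α hα0 hα1 L hL
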